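import Mathlib

/-!
# Fractional iterates of the exponential function

Let `H` be a monotone function on the real numbers such that a `k`-th iterate of `H` is `2 ^ x`.
Then `H` commutes with `2 ^ x`, and `H x - x` tends to infinity.
-/

set_option autoImplicit false

namespace Pool.Agent.T9h32.FE

theorem lt_two_rpow (x : ℝ) : x < (2 : ℝ) ^ x := by
  rcases le_or_gt x 0 with h | h
  · exact h.trans_lt (Real.rpow_pos_of_pos (by norm_num) x)
  · rcases lt_or_ge x 1 with h1 | h1
    · calc x < 1 := h1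
        _ ≤ (2 : ℝ) ^ x := Real.one_le_rpow (by norm_num) h.le
    · have := one_add_mul_self_le_rpow_one_add (s := 1) (by norm_num) h1
      norm_num at this
      linarith

theorem one_add_half_le (d : ℝ) (hd : 0 ≤ d) : 1 + d / 2 ≤ (2 : ℝ) ^ d := by
  rw [Real.rpow_def_of_pos (by norm_num)]
  have h1 := Real.add_one_le_exp (Real.log 2 * d)
  have h2 : (1 : ℝ) / 2 ≤ Real.log 2 := by
    have := Real.log_two_gt_d9
    linarith
  nlinarith

section

variable {k : ℕ} {H : ℝ → ℝ}

theorem comm2 (h2 : ∀ x, H^[k] x = (2 : ℝ) ^ x) (x : ℝ) : H ((2 : ℝ) ^ x) = (2 : ℝ) ^ (H x) := by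
  rw [← h2 x, ← h2 (H x), ← Function.iterate_succ_apply, ← Function.iterate_succ_apply' H]

theorem gt_self (hH : Monotone H) (h2 : ∀ x, H^[k] x = (2 : ℝ) ^ x) (x : ℝ) : x < H x := by
  by_contra hcon
  rw [not_lt] at hcon
  have h : ∀ n, H^[n] x ≤ x := by
    intro n
    induction n with
    | zero => exact le_rfl
    | succ n ih =>
      rw [Function.iterate_succ_apply']
      exact (hH ih).trans hcon
  have h1 := h k
  rw [h2] at h1
  exact absurd (lt_two_rpow x) (not_lt.2 h1)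

theorem strict (hH : Monotone H) (h2 : ∀ x, H^[k] x = (2 : ℝ) ^ x) : StrictMono H := by
  apply hH.strictMono_of_injective
  have hk : k ≠ 0 := by
    rintro rfl
    have := h2 0
    simp at this
  obtain ⟨m, rfl⟩ := Nat.exists_eq_succ_of_ne_zero hk
  intro x y hxy
  have h : (2 : ℝ) ^ x = (2 : ℝ) ^ y := by
    rw [← h2 x, ← h2 y, Function.iterate_succ_apply, Function.iterate_succ_apply, hxy]
  rcases lt_trichotomy x y with h3 | h3 | h3
  · exact absurd h (Real.rpow_lt_rpow_of_exponent_lt (by norm_num) h3).ne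
  · exact h3
  · exact absurd h (Real.rpow_lt_rpow_of_exponent_lt (by norm_num) h3).ne'

theorem gap_low (hH : Monotone H) (h2 : ∀ x, H^[k] x = (2 : ℝ) ^ x) (n : ℕ) :
    ∃ d > 0, ∀ y, 0 ≤ y → y ≤ H^[n] 0 → y + d ≤ H y := by
  have hs := strict hH h2
  have hgt := gt_self hH h2
  obtain ⟨w, hw1, hw2⟩ := exists_between (hgt 0)
  have e1 : ∀ n, H^[n] w < H^[n + 1] 0 := by
    intro n
    rw [Function.iterate_succ_apply]
    exact hs.iterate n hw2
  have e2 : ∀ n, H^[n] 0 < H^[n] w := fun n => hs.iterate n hw1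
  induction n with
  | zero =>
    refine ⟨H 0, hgt 0, fun y h0 h1 => ?_⟩
    have : y = 0 := le_antisymm h1 h0
    rw [this, zero_add]
  | succ n ih =>
    obtain ⟨d, hd, hd2⟩ := ih
    refine ⟨min d (min (H^[n + 1] 0 - H^[n] w) (H^[n + 1] w - H^[n + 1] 0)),
      lt_min hd (lt_min (sub_pos.2 (e1 n)) (sub_pos.2 (e2 (n + 1)))), fun y h0 h1 => ?_⟩
    rcases le_total y (H^[n] 0) with h | h
    · have := hd2 y h0 h
      have := min_le_left d (min (H^[n + 1] 0 - H^[n] w) (H^[n + 1] w - H^[n + 1] 0))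
      linarith
    · rcases le_total y (H^[n] w) with h3 | h3
      · have h4 : H^[n + 1] 0 ≤ H y := by
          rw [Function.iterate_succ_apply']
          exact hH h
        have h5 := (min_le_right d (min (H^[n + 1] 0 - H^[n] w)
          (H^[n + 1] w - H^[n + 1] 0))).trans (min_le_left _ _)
        linarith
      · have h4 : H^[n + 1] w ≤ H y := by
          rw [Function.iterate_succ_apply']
          exact hH h3
        have h5 := (min_le_right d (min (H^[n + 1] 0 - H^[n] w)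
          (H^[n + 1] w - H^[n + 1] 0))).trans (min_le_right _ _)
        linarith

/-- the step from `y` to `2 ^ y` -/
theorem up (h2 : ∀ x, H^[k] x = (2 : ℝ) ^ x) {y d : ℝ} (hd : 0 ≤ d) (h : y + d ≤ H y) :
    (2 : ℝ) ^ y + (2 : ℝ) ^ y * (d / 2) ≤ H ((2 : ℝ) ^ y) := by
  rw [comm2 h2]
  calc (2 : ℝ) ^ y + (2 : ℝ) ^ y * (d / 2) = (2 : ℝ) ^ y * (1 + d / 2) := by ring
    _ ≤ (2 : ℝ) ^ y * (2 : ℝ) ^ d := by
      apply mul_le_mul_of_nonneg_left (one_add_half_le d hd)
      positivity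
    _ = (2 : ℝ) ^ (y + d) := (Real.rpow_add (by norm_num) y d).symm
    _ ≤ (2 : ℝ) ^ (H y) := Real.rpow_le_rpow_of_exponent_le (by norm_num) h

theorem gap_all (hH : Monotone H) (h2 : ∀ x, H^[k] x = (2 : ℝ) ^ x) :
    ∃ d > 0, ∀ y, 0 ≤ y → y + d ≤ H y := by
  obtain ⟨d, hd, hd2⟩ := gap_low hH h2 k
  have h01 : ∀ y, 0 ≤ y → y ≤ 1 → y + d ≤ H y := by
    intro y h0 h1
    apply hd2 y h0
    rw [h2, Real.rpow_zero]
    exact h1
  refine ⟨d / 2, by positivity, ?_⟩
  have hlog : ∀ y : ℝ, 1 ≤ y → (2 : ℝ) ^ (Real.logb 2 y) = y := fun y hy =>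
    Real.rpow_logb (by norm_num) (by norm_num) (by linarith)
  have h12 : ∀ y, 0 ≤ y → y ≤ 2 → y + d / 2 ≤ H y := by
    intro y h0 h1
    rcases le_total y 1 with h | h
    · have := h01 y h0 h
      linarith
    · have e0 : 0 ≤ Real.logb 2 y := Real.logb_nonneg (by norm_num) h
      have e1 : Real.logb 2 y ≤ 1 := by
        rw [Real.logb_le_iff_le_rpow (by norm_num) (by linarith), Real.rpow_one]
        exact h1
      have e2 := up h2 hd.le (h01 _ e0 e1)
      rw [hlog y h] at e2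
      nlinarith
  have hall : ∀ n : ℕ, ∀ y : ℝ, 0 ≤ y → y ≤ (n : ℝ) + 2 → y + d / 2 ≤ H y := by
    intro n
    induction n with
    | zero =>
      intro y h0 h1
      exact h12 y h0 (by simpa using h1)
    | succ n ih =>
      intro y h0 h1
      rcases le_total y 2 with h | h
      · exact h12 y h0 h
      · have e0 : 0 ≤ Real.logb 2 y := Real.logb_nonneg (by norm_num) (by linarith)
        have e1 : Real.logb 2 y ≤ y - 1 := by
          rw [Real.logb_le_iff_le_rpow (by norm_num) (by linarith)]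
          have := one_add_mul_self_le_rpow_one_add (s := 1) (p := y - 1) (by norm_num)
            (by linarith)
          norm_num at this
          linarith
        push_cast at h1
        have e2 := up h2 (by positivity) (ih _ e0 (by linarith))
        rw [hlog y (by linarith)] at e2
        nlinarith
  intro y h0
  obtain ⟨n, hn⟩ := exists_nat_ge y
  exact hall n y h0 (by linarith)

/-- a fractional iterate of `2 ^ x` exceeds `x + 4` for large `x` -/
theorem large (hH : Monotone H) (h2 : ∀ x, H^[k] x = (2 : ℝ) ^ x) :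
    ∃ x₀ : ℕ, ∀ x : ℝ, x₀ ≤ x → x + 4 ≤ H x := by
  obtain ⟨d, hd, hd2⟩ := gap_all hH h2
  obtain ⟨n, hn⟩ := exists_nat_ge (8 / d)
  refine ⟨n + 1, fun x hx => ?_⟩
  push_cast at hx
  have h1 : (1 : ℝ) ≤ x := by
    have : (0 : ℝ) ≤ n := Nat.cast_nonneg n
    linarith
  have e0 : 0 ≤ Real.logb 2 x := Real.logb_nonneg (by norm_num) h1
  have e2 := up h2 hd.le (hd2 _ e0)
  rw [Real.rpow_logb (by norm_num) (by norm_num) (by linarith)] at e2
  have h3 : 8 / d ≤ x := by linarith
  rw [div_le_iff₀ hd] at h3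
  linarith

/-- the integral part of a fractional iterate of `2 ^ x` -/
theorem floor_good (hH : Monotone H) (h2 : ∀ x, H^[k] x = (2 : ℝ) ^ x) :
    ∃ x₀ : ℕ, ∀ x ≥ x₀, x + 3 ≤ ⌊H x⌋₊ ∧ 2 ^ ⌊H x⌋₊ ≤ ⌊H ((2 ^ x : ℕ) : ℝ)⌋₊ := by
  obtain ⟨x₀, h⟩ := large hH h2
  refine ⟨x₀, fun x hx => ?_⟩
  have h1 := h x (by exact_mod_cast hx)
  have h0 : (0 : ℝ) ≤ x := Nat.cast_nonneg x
  constructor
  · apply Nat.le_floor
    push_cast
    linarith
  · apply Nat.le_floor
    push_cast
    have e1 : ((2 : ℝ) ^ x) = (2 : ℝ) ^ (x : ℝ) := (Real.rpow_natCast 2 x).symm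
    rw [e1, comm2 h2, ← Real.rpow_natCast]
    exact Real.rpow_le_rpow_of_exponent_le (by norm_num) (Nat.floor_le (by linarith))

end

end Pool.Agent.T9h32.FE
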